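import Pool.Agent.J6H54.CG.Stm

/-!
# Module CG-24 of the project CG (helper54): the conjugacy classes of exponent `0`
-/

set_option autoImplicit false

namespace Pool.Agent.J6H19.CG24

open Pool.Agent.J6H54.CG

theorem cj_zero {k : ℕ} {x : ℚ} {q : Pt} (h : Cj k (x, 0) q) : ∃ i : ℤ, q = ((k : ℚ) ^ i * x, 0) := by
  obtain ⟨c, -, hc⟩ := h
  obtain ⟨c1, c2⟩ := c
  obtain ⟨q1, q2⟩ := q
  have h1 := congrArg Prod.fst hc
  have h2 := congrArg Prod.snd hc
  simp only [mul] at h1 h2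
  have h3 : q2 = 0 := by linarith
  subst h3
  rw [zpow_zero, one_mul] at h1
  refine ⟨c2, Prod.ext ?_ rfl⟩
  show q1 = _
  linarith

theorem z0_eq {k : ℕ} (hk : 2 ≤ k) {x y : ℤ} (hx : x ∈ Z0 k) (hy : y ∈ Z0 k) {i : ℤ}
    (h : (y : ℚ) = (k : ℚ) ^ i * x) : x = y := by
  have key : ∀ (a b : ℤ) (n : ℕ), a ∈ Z0 k → b ∈ Z0 k → (b : ℚ) = (k : ℚ) ^ n * a → a = b := by
    intro a b n ha hb hab
    have h1 : b = (k : ℤ) ^ n * a := by exact_mod_cast hab
    rcases Nat.eq_zero_or_pos n with rfl | hn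
    · rw [h1]; simp
    · have h2 : (k : ℤ) ∣ b := by
        rw [h1]
        exact Dvd.dvd.mul_right (dvd_pow_self _ (by omega)) _
      have h3 : b = 0 := by
        rcases hb with h | h
        · exact h
        · exact absurd h2 h
      rw [h3] at h1
      have hk0 : ((k : ℤ) ^ n) ≠ 0 := pow_ne_zero _ (by exact_mod_cast (by omega : k ≠ 0))
      rw [h3]
      exact (mul_eq_zero.1 h1.symm).resolve_left hk0
  rcases le_or_gt 0 i with hi | hi
  · obtain ⟨n, rfl⟩ := Int.eq_ofNat_of_zero_le hi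
    exact key x y n hx hy (by rw [h]; rfl)
  · obtain ⟨n, hn⟩ := Int.eq_ofNat_of_zero_le (show 0 ≤ -i by omega)
    refine (key y x n hy hx ?_).symm
    have h1 : (k : ℚ) ^ i = ((k : ℚ) ^ n)⁻¹ := by
      rw [← zpow_natCast, ← hn, ← zpow_neg, neg_neg]
    have hk0 : ((k : ℚ) ^ n) ≠ 0 := pow_ne_zero _ (kne hk)
    rw [h, h1, mul_inv_cancel_left₀ hk0]

theorem m24 : S_class0 := by
  intro k hk
  refine ⟨?_, ?_, fun x q h => cj_zero h⟩
  · rintro x ⟨d, a, ha⟩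
    have hk0 : ((k : ℚ) ^ (d : ℤ)) ≠ 0 := zpow_ne_zero _ (kne hk)
    by_cases h0 : a = 0
    · refine ⟨0, Or.inl rfl, (0, 0), ka_zero, ?_⟩
      rw [h0, Int.cast_zero] at ha
      have hx : x = 0 := (mul_eq_zero.1 ha).resolve_right hk0
      rw [hx, one_mul', mul_one', Int.cast_zero]
    · have hfin : FiniteMultiplicity (k : ℤ) a := by
        rw [Int.finiteMultiplicity_iff]
        refine ⟨?_, h0⟩
        rw [Int.natAbs_natCast]
        omega
      obtain ⟨b, hb, hkb⟩ := hfin.exists_eq_pow_mul_and_not_dvd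
      obtain ⟨n, hn⟩ : ∃ n : ℕ, n = multiplicity (k : ℤ) a := ⟨_, rfl⟩
      rw [← hn] at hb
      refine ⟨b, Or.inr hkb, (0, (d : ℤ) - n), ka_zero, ?_⟩
      have hn0 : ((k : ℚ) ^ (n : ℤ)) ≠ 0 := zpow_ne_zero _ (kne hk)
      have h1 : (k : ℚ) ^ ((d : ℤ) - n) * x = b := by
        rw [zpow_sub₀ (kne hk), div_mul_eq_mul_div, div_eq_iff hn0, mul_comm ((k : ℚ) ^ (d : ℤ)) x, ha,
          hb]
        push_cast
        rw [zpow_natCast]
        ring
      refine Prod.ext ?_ ?_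
      · show (0 : ℚ) + (k : ℚ) ^ ((d : ℤ) - n) * x = b + (k : ℚ) ^ (0 : ℤ) * 0
        rw [h1]; simp
      · show ((d : ℤ) - n) + 0 = 0 + ((d : ℤ) - n)
        ring
  · intro x hx y hy h
    obtain ⟨i, hi⟩ := cj_zero h
    exact z0_eq hk hx hy (congrArg Prod.fst hi)

end Pool.Agent.J6H19.CG24
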